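import Pool.Agent.V132.SS.A7

/-!
# MP_33d24b_co: pairs with finitely many recursively partitionable semistars

`(b₀, k) = (3, 8)` has at least one and only finitely many RP semistars.
-/

namespace Pool.Agent.Results.MP_33d24b_co.FiniteThreeEight

open Finset Pool.Agent.V132.SS

/-- The `(b0, k)` RP semistars, counted by their sorted parameter lists `b_1 ≤ … ≤ b_k` of positive
integers. Here `semistar b0 b` is the graph `K_{b0}(b_1, …, b_k)` and `RP G univ` says that `G` is
recursively partitionable. -/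
def rpSemistars (b0 k : ℕ) : Set (Fin k → ℕ) :=
  {b | Monotone b ∧ (∀ i, 0 < b i) ∧ RP (semistar b0 b) univ}

lemma sum_le {b : Fin 8 → ℕ} (h : b ∈ rpSemistars 3 8) : ∑ i, b i ≤ 38 := by
  have h1 := (semistar_surv h.2.1 h.2.2).sum
  rw [ms_sum] at h1
  exact h1.1

lemma fin38 : (rpSemistars 3 8).Finite := by
  apply Set.Finite.subset (Set.finite_Icc (0 : Fin 8 → ℕ) (fun _ => 38))
  intro b hb
  refine ⟨fun i => Nat.zero_le _, fun i => ?_⟩
  exact (Finset.single_le_sum (f := b) (fun _ _ => Nat.zero_le _) (mem_univ i)).trans (sum_le hb)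

lemma ne38 : (rpSemistars 3 8).Nonempty := by
  refine ⟨![1, 1, 1, 2, 2, 3, 4, 6], ?_, ?_, semistar_ex⟩
  · rw [Fin.monotone_iff_le_succ]
    decide
  · decide

/-- The answer to Q1 is yes: the number of `(3, 8)` RP semistars is finite and at least one.
Moreover every `(3, 8)` RP semistar has at most `41` vertices. -/
theorem result :
    (∃ b0 k : ℕ, 0 < b0 ∧ 0 < k ∧ (rpSemistars b0 k).Finite ∧ (rpSemistars b0 k).Nonempty) ∧
      (rpSemistars 3 8).Finite ∧ (rpSemistars 3 8).Nonempty ∧
        ∀ b ∈ rpSemistars 3 8, ∑ i, b i ≤ 38 :=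
  ⟨⟨3, 8, by norm_num, by norm_num, fin38, ne38⟩, fin38, ne38, fun _ h => sum_le h⟩

end Pool.Agent.Results.MP_33d24b_co.FiniteThreeEight
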